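import Pool.Agent.R665.She.BC2

/-!
# Shephard groups, their extensions, and the Stolz index map for proper actions

If the real Baum–Connes assembly map of `Γ` is onto (for instance, if `Γ` satisfies the Baum–Connes
conjecture with coefficients) then `Θ` is onto for `Γ`; torsion is allowed. `B` is a class of groups with
the inheritance properties of the Baum–Connes conjecture with coefficients (`InheritBC B`).

`W B` is the class of the groups `G` such that every countable group with a subgroup of finite index
which embeds in a finite power of `G` is in `B` (equivalently: finite wreath products over `G`). It is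
closed under subgroups, overgroups of finite index, directed unions and arbitrary extensions
(`MP_ba76ae_gt.ElementaryExtensions`). It is assumed that `W B` contains the free groups and the Coxeter
groups of finite rank (these are a-T-menable).

Let `M` be a Coxeter matrix over any set `V`, finite or infinite (the entry `0` stands for the label
infinity), and let `p v`, for `v` in `V`, be even numbers (`0` stands for infinity) with `p v = p w` if
the label of `v` and `w` is odd. The Shephard group `Shephard M p` is the quotient of the Artin group of
`M` by the relations `v ^ p v = 1`. Coxeter groups (`p = 2`), Artin groups (`p = 0`) and graph products of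
cyclic groups of even or infinite order are Shephard groups.

1. `Shephard M p` is in `W B` if and only if its parabolic subgroups of finite rank which are
   irreducible and without label infinity are in `W B`.
2. If every three generators without label infinity have two labels `2`, then `Shephard M p` is in
   `W B`. Here the parabolic subgroups with two generators can be infinite: central extensions of
   spherical, Euclidean and hyperbolic triangle groups.
3. If `Shephard M p` is in `W B`, then every extension of a group in `W B` by `Shephard M p` is in `W B`,
   and every countable extension of a group in `B` by `Shephard M p` is in `B`.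

The case `p = 0` of 1 and 3 is `ArtinGroups` (helper779), with the word irreducible omitted.

Outline of the proof. A word over `V` moves along the cosets of the parabolic subgroup `W_T` of the
Coxeter group `W` and writes a word over `T` (as for Artin groups, `MP_9d1ffa_al.ArtinGroups`). At a coset
a power `v ^ p v` writes either nothing or `t ^ p v` with a generator `t` in `T` conjugate to `v` in `W`, so
that `p t = p v`. This gives a homomorphism of `Shephard M p` to the extension of the Coxeter group by the
finite-valued functions on `W / W_T` with values in `Shephard T`, which is injective on the parabolic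
subgroup of `T`. A label infinity gives an amalgamated product, and the kernel of the homomorphism is in
`W B` by `MP_ba76ae_gt.KernelsOfSplittings`. For two generators `x` and `y`, let `D` be their Shephard group
and let `W'` be the Coxeter group of the triangle with the orders `(p x, p y, k)`, if the label is `2 k`,
and `(p x, 2, 2 k + 1)`, if the label is `2 k + 1`. There are homomorphisms `D → W' → Aut D`, where the
second one uses the automorphism that inverts `x` and `y`, with composition `D → Inn D`. So `D` is a
central extension of a subgroup of `W'`.
-/

set_option autoImplicit false

namespace Pool.Agent.Results.MP_8db816_gt.ShephardGroups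

open Pool.Agent.Helper741
open Pool.Agent.R941.BC (Inherit W)

/-- the inheritance properties of the Baum–Connes conjecture with coefficients for countable groups:
subgroups, directed unions, extensions -/
structure InheritBC (B : ∀ (G : Type) [Group G], Prop) : Prop where
  sub : ∀ (G H : Type) [Group G] [Group H] [Countable H] (f : G →* H), Function.Injective f →
    B H → B G
  loc : ∀ (G : Type) [Group G] [Countable G], (∀ L : Subgroup G, L.FG → B L) → B G
  ext : ∀ (G : Type) [Group G] [Countable G] (N : Subgroup G) [N.Normal], B (G ⧸ N) →
    (∀ H : Subgroup G, N ≤ H → N.relIndex H ≠ 0 → B H) → B G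

/-- the Shephard group of `M` with the orders `p` (`0` stands for infinity) -/
abbrev Shephard {V : Type} (M : CoxeterMatrix V) (p : V → ℕ) : Type :=
  Artin M ⧸ Subgroup.normalClosure (Set.range fun v => Artin.gen M v ^ p v)

/-- the generators -/
def gen {V : Type} (M : CoxeterMatrix V) (p : V → ℕ) (v : V) : Shephard M p :=
  QuotientGroup.mk' _ (Artin.gen M v)

/-- the standard parabolic subgroup of `T` -/
def par {V : Type} (M : CoxeterMatrix V) (p : V → ℕ) (T : Set V) : Subgroup (Shephard M p) :=
  Subgroup.closure (gen M p '' T)

/-- there is no label infinity between the elements of `T` -/
def InfFree {V : Type} (M : CoxeterMatrix V) (T : Set V) : Prop := ∀ i ∈ T, ∀ j ∈ T, M i j ≠ 0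

/-- `T` has no partition into two nonempty sets with all labels between them equal to `2` -/
def Irreducible {V : Type} (M : CoxeterMatrix V) (T : Set V) : Prop :=
  ∀ X ⊆ T, X.Nonempty → (T \ X).Nonempty → ∃ i ∈ X, ∃ j ∈ T \ X, M i j ≠ 2

/-- every three generators without label infinity have two labels `2` -/
def LocallyReducible {V : Type} (M : CoxeterMatrix V) : Prop :=
  ∀ i j k : V, i ≠ j → j ≠ k → i ≠ k → M i j ≠ 0 → M j k ≠ 0 → M i k ≠ 0 → M i j = 2 ∨ M j k = 2

/-- **Shephard groups** -/
theorem result {B : ∀ (G : Type) [Group G], Prop} (h : InheritBC B)
    (hF : W B (FreeGroup ℕ))
    (hW : ∀ (V : Type) [Finite V] (M : CoxeterMatrix V), W B M.Group) (V : Type)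
    (M : CoxeterMatrix V) (p : V → ℕ) (hp : ∀ v, Even (p v))
    (ho : ∀ v w, Odd (M v w) → p v = p w) :
    (W B (Shephard M p) ↔ ∀ T : Finset V, InfFree M (T : Set V) → Irreducible M (T : Set V) →
      W B ↥(par M p (T : Set V))) ∧
    (LocallyReducible M → W B (Shephard M p)) ∧
    (W B (Shephard M p) → ∀ (G : Type) [Group G] (N : Subgroup G) [N.Normal],
      Nonempty (Shephard M p ≃* N) →
        (W B (G ⧸ N) → W B G) ∧ (Countable G → B (G ⧸ N) → B G)) := by
  have hI : Inherit B B := ⟨h.sub, h.loc, h.ext, h.ext⟩
  obtain ⟨h1, h2, h3⟩ := Pool.Agent.R665.She.BC.she_main hI hF hW M p ⟨hp, ho⟩
  exact ⟨h1, h2, fun h4 G _ N _ he =>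
    ⟨(h3 h4 G N he).1, fun hc => ((h3 h4 G N he).2 hc).1⟩⟩

end Pool.Agent.Results.MP_8db816_gt.ShephardGroups
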